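import Mathlib

/-!
# An xyz-type inequality for independent random variables: it fails, in the strongest sense

Four coins. `X 0` is near `4` or near `1`, `X 1` is near `2`, `X 2` is near `5` or near `0`, `X 3` is
near `6` or near `3`, all other variables are near other integers; each variable is such an integer
plus half of a uniform variable. `P = {X 0 < X 3, X 2 < X 3}`. Let `p = Pr (X 0 near 1)`,
`s = Pr (X 3 near 6)`, `Pr (X 2 near 5) = 1/2`. Given `P` and `X 0 < X 2` the event `X 0 < X 1` has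
probability `p`, given `P` it has probability `(s p + (1-s) p/2) / (s + (1-s) p/2)`, which tends to
`1` for `s → 0`.
-/

set_option autoImplicit false

open MeasureTheory ProbabilityTheory

namespace Pool.Agent.Results.MP_aa6114_pr.XyzFails

/-- the coin with `Pr (true) = p` -/
private noncomputable def coin (p : ℝ) : Measure Bool :=
  ENNReal.ofReal p • Measure.dirac true + ENNReal.ofReal (1 - p) • Measure.dirac false

private theorem coin_true (p : ℝ) : coin p {true} = ENNReal.ofReal p := by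
  simp [coin]

private theorem coin_false (p : ℝ) : coin p {false} = ENNReal.ofReal (1 - p) := by
  simp [coin]

private theorem coin_prob {p : ℝ} (h0 : 0 ≤ p) (h1 : p ≤ 1) : IsProbabilityMeasure (coin p) := by
  constructor
  simp only [coin, Measure.add_apply, Measure.smul_apply, measure_univ, smul_eq_mul, mul_one]
  rw [← ENNReal.ofReal_add h0 (by linarith)]
  norm_num

/-- the integers -/
private def val (i : ℕ) (b : Bool) : ℕ :=
  if i = 0 then (if b then 4 else 1)
  else if i = 1 then 2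
  else if i = 2 then (if b then 5 else 0)
  else if i = 3 then (if b then 6 else 3)
  else i + 3

/-- the weights: `Pr (true)` for the `i`-th coin -/
private noncomputable def wt (p s : ℝ) (i : ℕ) : ℝ :=
  if i = 0 then 1 - p else if i = 3 then s else 1 / 2

private theorem wt_mem {p s : ℝ} (hp : 0 < p) (hp1 : p < 1) (hs : 0 < s) (hs1 : s < 1) (i : ℕ) :
    0 ≤ wt p s i ∧ wt p s i ≤ 1 := by
  unfold wt
  split_ifs <;> constructor <;> linarith

/-- the measure of one factor -/
private noncomputable def fac (p s : ℝ) (i : ℕ) : Measure (Bool × unitInterval) :=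
  (coin (wt p s i)).prod volume

/-- the function of one factor -/
private noncomputable def fn (i : ℕ) (w : Bool × unitInterval) : ℝ :=
  (val i w.1 : ℝ) + (w.2 : ℝ) / 2

private theorem fn_meas (i : ℕ) : Measurable (fn i) := by
  unfold fn
  refine Measurable.add ?_ ?_
  · exact (measurable_from_top (f := fun b : Bool => (val i b : ℝ))).comp measurable_fst
  · exact (measurable_subtype_coe.comp measurable_snd).div_const 2

private theorem fac_prob {p s : ℝ} (hp : 0 < p) (hp1 : p < 1) (hs : 0 < s) (hs1 : s < 1) (i : ℕ) :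
    IsProbabilityMeasure (fac p s i) := by
  have h := wt_mem hp hp1 hs hs1 i
  have := coin_prob h.1 h.2
  unfold fac
  infer_instance

private theorem lt_iff {a b : ℕ} (u v : unitInterval) (h : a ≠ b) :
    (a : ℝ) + (u : ℝ) / 2 < (b : ℝ) + (v : ℝ) / 2 ↔ a < b := by
  have hu0 := u.2.1
  have hu1 := u.2.2
  have hv0 := v.2.1
  have hv1 := v.2.2
  constructor
  · intro hlt
    by_contra hge
    push Not at hge
    have h2 : b + 1 ≤ a := Nat.lt_iff_add_one_le.1 (lt_of_le_of_ne hge (Ne.symm h))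
    have h3 : (b : ℝ) + 1 ≤ a := by exact_mod_cast h2
    linarith
  · intro hlt
    have h2 : a + 1 ≤ b := hlt
    have h3 : (a : ℝ) + 1 ≤ b := by exact_mod_cast h2
    linarith

/-- the value of a factor has no atoms -/
private theorem fac_atom {p s : ℝ} (hp : 0 < p) (hp1 : p < 1) (hs : 0 < s) (hs1 : s < 1) (i : ℕ)
    (c : ℝ) : fac p s i {w | fn i w = c} = 0 := by
  have h := wt_mem hp hp1 hs hs1 i
  have := coin_prob h.1 h.2
  have hsub : {w : Bool × unitInterval | fn i w = c} ⊆
      ⋃ b : Bool, Set.univ ×ˢ {u : unitInterval | (u : ℝ) = 2 * (c - val i b)} := by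
    intro w hw
    rw [Set.mem_iUnion]
    refine ⟨w.1, ⟨Set.mem_univ _, ?_⟩⟩
    have hw' : (val i w.1 : ℝ) + (w.2 : ℝ) / 2 = c := hw
    change (w.2 : ℝ) = 2 * (c - val i w.1)
    linarith
  refine measure_mono_null hsub ?_
  rw [measure_iUnion_null_iff]
  intro b
  unfold fac
  rw [Measure.prod_prod]
  have h0 : (volume : Measure unitInterval) {u : unitInterval | (u : ℝ) = 2 * (c - val i b)} = 0 := by
    apply Set.Subsingleton.measure_zero
    intro u hu v hv
    apply Subtype.ext
    rw [show (u : ℝ) = 2 * (c - val i b) from hu, show (v : ℝ) = 2 * (c - val i b) from hv]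
  rw [h0, mul_zero]

section
variable (n : ℕ) (p s : ℝ)

/-- the product measure -/
private noncomputable def mu : Measure (Fin (n + 4) → Bool × unitInterval) :=
  Measure.pi (fun i => fac p s i)

/-- cylinders: the coins `0`, `2`, `3` are prescribed on the sets `A`, `B`, `C` -/
private def cyl (A B C : Set Bool) : Set (Fin (n + 4) → Bool × unitInterval) :=
  {w | (w 0).1 ∈ A ∧ (w 2).1 ∈ B ∧ (w 3).1 ∈ C}

end

private theorem fin_cases4 (n : ℕ) : (0 : Fin (n + 4)).val = 0 ∧ (1 : Fin (n + 4)).val = 1 ∧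
    (2 : Fin (n + 4)).val = 2 ∧ (3 : Fin (n + 4)).val = 3 := by
  refine ⟨rfl, ?_, ?_, ?_⟩
  · change 1 % (n + 4) = 1
    exact Nat.mod_eq_of_lt (by omega)
  · change 2 % (n + 4) = 2
    exact Nat.mod_eq_of_lt (by omega)
  · change 3 % (n + 4) = 3
    exact Nat.mod_eq_of_lt (by omega)

private theorem cyl_meas {n : ℕ} {p s : ℝ} (hp : 0 < p) (hp1 : p < 1) (hs : 0 < s) (hs1 : s < 1)
    (A B C : Set Bool) : mu n p s (cyl n A B C) =
      coin (1 - p) A * coin (1 / 2) B * coin s C := by
  obtain ⟨e0, e1, e2, e3⟩ := fin_cases4 n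
  have : ∀ i : Fin (n + 4), IsProbabilityMeasure (fac p s i) :=
    fun i => fac_prob hp hp1 hs hs1 i
  have hset : cyl n A B C = Set.pi Set.univ (fun i : Fin (n + 4) =>
      (if i = 0 then A ×ˢ Set.univ else if i = 2 then B ×ˢ Set.univ else
        if i = 3 then C ×ˢ Set.univ else Set.univ : Set (Bool × unitInterval))) := by
    have h20 : (2 : Fin (n + 4)) ≠ 0 := fun h => by
      have := congrArg Fin.val h
      omega
    have h30 : (3 : Fin (n + 4)) ≠ 0 := fun h => by
      have := congrArg Fin.val h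
      omega
    have h32 : (3 : Fin (n + 4)) ≠ 2 := fun h => by
      have := congrArg Fin.val h
      omega
    ext w
    rw [Set.mem_univ_pi]
    constructor
    · rintro ⟨h0, h2, h3⟩ i
      split_ifs with g0 g2 g3
      · rw [g0]
        exact ⟨h0, Set.mem_univ _⟩
      · rw [g2]
        exact ⟨h2, Set.mem_univ _⟩
      · rw [g3]
        exact ⟨h3, Set.mem_univ _⟩
      · exact Set.mem_univ _
    · intro h
      refine ⟨?_, ?_, ?_⟩
      · have := h 0
        rw [if_pos rfl] at this
        exact this.1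
      · have := h 2
        rw [if_neg h20, if_pos rfl] at this
        exact this.1
      · have := h 3
        rw [if_neg h30, if_neg h32, if_pos rfl] at this
        exact this.1
  rw [hset]
  unfold mu
  rw [Measure.pi_pi]
  have hprod : ∀ i : Fin (n + 4), fac p s i
      (if i = 0 then A ×ˢ Set.univ else if i = 2 then B ×ˢ Set.univ else
        if i = 3 then C ×ˢ Set.univ else Set.univ) =
      (if i = 0 then coin (1 - p) A else 1) * (if i = 2 then coin (1 / 2) B else 1) *
        (if i = 3 then coin s C else 1) := by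
    intro i
    have h20 : (2 : Fin (n + 4)) ≠ 0 := fun h => by
      have := congrArg Fin.val h
      omega
    have h30 : (3 : Fin (n + 4)) ≠ 0 := fun h => by
      have := congrArg Fin.val h
      omega
    have h32 : (3 : Fin (n + 4)) ≠ 2 := fun h => by
      have := congrArg Fin.val h
      omega
    by_cases g0 : i = 0
    · have g2 : i ≠ 2 := fun h => h20 (by rw [← h, g0])
      have g3 : i ≠ 3 := fun h => h30 (by rw [← h, g0])
      rw [if_pos g0, if_pos g0, if_neg g2, if_neg g3, mul_one, mul_one]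
      unfold fac
      rw [Measure.prod_prod, measure_univ, mul_one]
      have : wt p s i = 1 - p := by
        unfold wt
        rw [if_pos (by rw [g0]; exact e0)]
      rw [this]
    · by_cases g2 : i = 2
      · have g3 : i ≠ 3 := fun h => h32 (by rw [← h, g2])
        rw [if_neg g0, if_pos g2, if_neg g0, if_pos g2, if_neg g3, mul_one, one_mul]
        unfold fac
        rw [Measure.prod_prod, measure_univ, mul_one]
        have : wt p s i = 1 / 2 := by
          unfold wt
          rw [if_neg (by rw [g2]; omega), if_neg (by rw [g2]; omega)]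
        rw [this]
      · by_cases g3 : i = 3
        · rw [if_neg g0, if_neg g2, if_pos g3, if_neg g0, if_neg g2, if_pos g3, mul_one, one_mul]
          unfold fac
          rw [Measure.prod_prod, measure_univ, mul_one]
          have : wt p s i = s := by
            unfold wt
            rw [if_neg (by rw [g3]; omega), if_pos (by rw [g3]; exact e3)]
          rw [this]
        · rw [if_neg g0, if_neg g2, if_neg g3, if_neg g0, if_neg g2, if_neg g3, measure_univ,
            mul_one, mul_one]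
  rw [Finset.prod_congr rfl (fun i _ => hprod i), Finset.prod_mul_distrib,
    Finset.prod_mul_distrib, Finset.prod_ite_eq', Finset.prod_ite_eq', Finset.prod_ite_eq',
    if_pos (Finset.mem_univ _), if_pos (Finset.mem_univ _), if_pos (Finset.mem_univ _)]

/-- the variables -/
private noncomputable def XX (n : ℕ) (i : Fin (n + 4)) (w : Fin (n + 4) → Bool × unitInterval) : ℝ :=
  fn i (w i)

private theorem XX_lt {n : ℕ} (i j : Fin (n + 4)) (w : Fin (n + 4) → Bool × unitInterval)
    (h : val i (w i).1 ≠ val j (w j).1) :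
    XX n i w < XX n j w ↔ val i (w i).1 < val j (w j).1 := by
  unfold XX fn
  exact lt_iff _ _ h

private theorem ev03 {n : ℕ} (w : Fin (n + 4) → Bool × unitInterval) :
    XX n 0 w < XX n 3 w ↔ ((w 0).1 = false ∨ (w 3).1 = true) := by
  obtain ⟨e0, e1, e2, e3⟩ := fin_cases4 n
  rw [XX_lt] <;> rw [e0, e3] <;> rcases (w 0).1 <;> rcases (w 3).1 <;> decide

private theorem ev23 {n : ℕ} (w : Fin (n + 4) → Bool × unitInterval) :
    XX n 2 w < XX n 3 w ↔ ((w 2).1 = false ∨ (w 3).1 = true) := by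
  obtain ⟨e0, e1, e2, e3⟩ := fin_cases4 n
  rw [XX_lt] <;> rw [e2, e3] <;> rcases (w 2).1 <;> rcases (w 3).1 <;> decide

private theorem ev02 {n : ℕ} (w : Fin (n + 4) → Bool × unitInterval) :
    XX n 0 w < XX n 2 w ↔ (w 2).1 = true := by
  obtain ⟨e0, e1, e2, e3⟩ := fin_cases4 n
  rw [XX_lt] <;> rw [e0, e2] <;> rcases (w 0).1 <;> rcases (w 2).1 <;> decide

private theorem ev01 {n : ℕ} (w : Fin (n + 4) → Bool × unitInterval) :
    XX n 0 w < XX n 1 w ↔ (w 0).1 = false := by
  obtain ⟨e0, e1, e2, e3⟩ := fin_cases4 n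
  rw [XX_lt] <;> rw [e0, e1] <;> rcases (w 0).1 <;> rcases (w 1).1 <;> decide

private theorem set1 (n : ℕ) : {w | (XX n 0 w < XX n 3 w ∧ XX n 2 w < XX n 3 w) ∧
    XX n 0 w < XX n 2 w} = cyl n Set.univ {true} {true} := by
  ext w
  change (XX n 0 w < XX n 3 w ∧ XX n 2 w < XX n 3 w) ∧ XX n 0 w < XX n 2 w ↔
    (w 0).1 ∈ Set.univ ∧ (w 2).1 ∈ ({true} : Set Bool) ∧ (w 3).1 ∈ ({true} : Set Bool)
  rw [ev03, ev23, ev02]
  rcases (w 0).1 <;> rcases (w 2).1 <;> rcases (w 3).1 <;> simp

private theorem set4 (n : ℕ) : {w | ((XX n 0 w < XX n 3 w ∧ XX n 2 w < XX n 3 w) ∧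
    XX n 0 w < XX n 2 w) ∧ XX n 0 w < XX n 1 w} = cyl n {false} {true} {true} := by
  ext w
  change ((XX n 0 w < XX n 3 w ∧ XX n 2 w < XX n 3 w) ∧ XX n 0 w < XX n 2 w) ∧
    XX n 0 w < XX n 1 w ↔
    (w 0).1 ∈ ({false} : Set Bool) ∧ (w 2).1 ∈ ({true} : Set Bool) ∧ (w 3).1 ∈ ({true} : Set Bool)
  rw [ev03, ev23, ev02, ev01]
  rcases (w 0).1 <;> rcases (w 2).1 <;> rcases (w 3).1 <;> simp

private theorem set3 (n : ℕ) : {w | XX n 0 w < XX n 3 w ∧ XX n 2 w < XX n 3 w} =
    cyl n Set.univ Set.univ {true} ∪ cyl n {false} {false} {false} := by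
  ext w
  change XX n 0 w < XX n 3 w ∧ XX n 2 w < XX n 3 w ↔
    ((w 0).1 ∈ Set.univ ∧ (w 2).1 ∈ Set.univ ∧ (w 3).1 ∈ ({true} : Set Bool)) ∨
    ((w 0).1 ∈ ({false} : Set Bool) ∧ (w 2).1 ∈ ({false} : Set Bool) ∧
      (w 3).1 ∈ ({false} : Set Bool))
  rw [ev03, ev23]
  rcases (w 0).1 <;> rcases (w 2).1 <;> rcases (w 3).1 <;> simp

private theorem set2 (n : ℕ) : {w | (XX n 0 w < XX n 3 w ∧ XX n 2 w < XX n 3 w) ∧
    XX n 0 w < XX n 1 w} =
    cyl n {false} Set.univ {true} ∪ cyl n {false} {false} {false} := by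
  ext w
  change (XX n 0 w < XX n 3 w ∧ XX n 2 w < XX n 3 w) ∧ XX n 0 w < XX n 1 w ↔
    ((w 0).1 ∈ ({false} : Set Bool) ∧ (w 2).1 ∈ Set.univ ∧ (w 3).1 ∈ ({true} : Set Bool)) ∨
    ((w 0).1 ∈ ({false} : Set Bool) ∧ (w 2).1 ∈ ({false} : Set Bool) ∧
      (w 3).1 ∈ ({false} : Set Bool))
  rw [ev03, ev23, ev01]
  rcases (w 0).1 <;> rcases (w 2).1 <;> rcases (w 3).1 <;> simp

private theorem cyl_disj (n : ℕ) (A A' B B' : Set Bool) :
    Disjoint (cyl n A B {true}) (cyl n A' B' {false}) := by
  rw [Set.disjoint_left]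
  rintro w ⟨_, _, h⟩ ⟨_, _, h'⟩
  rw [Set.mem_singleton_iff] at h h'
  rw [h] at h'
  exact absurd h' (by decide)

private theorem cyl_set (n : ℕ) (A B C : Set Bool) : MeasurableSet (cyl n A B C) := by
  have h : ∀ i : Fin (n + 4), Measurable (fun w : Fin (n + 4) → Bool × unitInterval => (w i).1) :=
    fun i => measurable_fst.comp (measurable_pi_apply i)
  have h0 := h 0 (Set.toFinite A).measurableSet
  have h2 := h 2 (Set.toFinite B).measurableSet
  have h3 := h 3 (Set.toFinite C).measurableSet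
  exact h0.inter (h2.inter h3)

private theorem cyl_real {n : ℕ} {p s a b c : ℝ} (hp : 0 < p) (hp1 : p < 1) (hs : 0 < s)
    (hs1 : s < 1) {A B C : Set Bool} (ha : 0 ≤ a) (hb : 0 ≤ b)
    (hA : coin (1 - p) A = ENNReal.ofReal a) (hB : coin (1 / 2) B = ENNReal.ofReal b)
    (hC : coin s C = ENNReal.ofReal c) (hc : 0 ≤ c) :
    (mu n p s).real (cyl n A B C) = a * b * c := by
  unfold Measure.real
  rw [cyl_meas hp hp1 hs hs1, hA, hB, hC, ← ENNReal.ofReal_mul ha,
    ← ENNReal.ofReal_mul (mul_nonneg ha hb), ENNReal.toReal_ofReal (mul_nonneg (mul_nonneg ha hb) hc)]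

/-- the conjectured inequality `Pr(X₁ < X₂ | P) ≤ Pr(X₁ < X₂ | P, X₁ < X₃)` fails for every number
`n + 4` of variables, with `P = {X₁ < X₄, X₃ < X₄}`, even for continuous distributions: the left
side can be as close to `1` and the right side as close to `0` as one likes. -/
theorem result (n : ℕ) (ε : ℝ) (hε : 0 < ε) :
    ∃ (Ω : Type) (_ : MeasurableSpace Ω) (μ : Measure Ω) (X : Fin (n + 4) → Ω → ℝ),
      IsProbabilityMeasure μ ∧ (∀ i, Measurable (X i)) ∧ iIndepFun X μ ∧
      (∀ (i : Fin (n + 4)) (c : ℝ), μ {ω | X i ω = c} = 0) ∧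
      0 < μ.real {ω | (X 0 ω < X 3 ω ∧ X 2 ω < X 3 ω) ∧ X 0 ω < X 2 ω} ∧
      1 - ε < μ.real {ω | (X 0 ω < X 3 ω ∧ X 2 ω < X 3 ω) ∧ X 0 ω < X 1 ω} /
        μ.real {ω | X 0 ω < X 3 ω ∧ X 2 ω < X 3 ω} ∧
      μ.real {ω | ((X 0 ω < X 3 ω ∧ X 2 ω < X 3 ω) ∧ X 0 ω < X 2 ω) ∧ X 0 ω < X 1 ω} /
        μ.real {ω | (X 0 ω < X 3 ω ∧ X 2 ω < X 3 ω) ∧ X 0 ω < X 2 ω} < ε := by
  obtain ⟨p, hp, hp2, hpe⟩ : ∃ p : ℝ, 0 < p ∧ p ≤ 1 / 2 ∧ p < ε := by
    refine ⟨min (ε / 2) (1 / 2), lt_min (by linarith) (by norm_num), min_le_right _ _, ?_⟩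
    exact lt_of_le_of_lt (min_le_left _ _) (by linarith)
  obtain ⟨s, hs⟩ : ∃ s : ℝ, s = p ^ 2 / 4 := ⟨_, rfl⟩
  have hp1 : p < 1 := by linarith
  have hs0 : 0 < s := by
    rw [hs]
    positivity
  have hp4 : p ^ 2 ≤ 1 / 4 := by nlinarith
  have hs1 : s ≤ 1 / 16 := by
    rw [hs]
    linarith
  have hs1' : s < 1 := by linarith
  have hprob : ∀ i : Fin (n + 4), IsProbabilityMeasure (fac p s i) :=
    fun i => fac_prob hp hp1 hs0 hs1' i
  have hmu : IsProbabilityMeasure (mu n p s) := by
    unfold mu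
    infer_instance
  have cu : ∀ q : ℝ, 0 ≤ q → q ≤ 1 → coin q Set.univ = ENNReal.ofReal 1 := by
    intro q h0 h1
    have := coin_prob h0 h1
    rw [measure_univ, ENNReal.ofReal_one]
  have cf : coin (1 - p) {false} = ENNReal.ofReal p := by
    rw [coin_false, show 1 - (1 - p) = p by ring]
  have ch : coin (1 / 2) {false} = ENNReal.ofReal (1 / 2) := by
    rw [coin_false]
    norm_num
  have m1 : (mu n p s).real (cyl n Set.univ {true} {true}) = 1 * (1 / 2) * s :=
    cyl_real hp hp1 hs0 hs1' (by norm_num) (by norm_num) (cu _ (by linarith) (by linarith))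
      (coin_true _) (coin_true _) hs0.le
  have m4 : (mu n p s).real (cyl n {false} {true} {true}) = p * (1 / 2) * s :=
    cyl_real hp hp1 hs0 hs1' hp.le (by norm_num) cf (coin_true _) (coin_true _) hs0.le
  have m3 : (mu n p s).real (cyl n Set.univ Set.univ {true}) = 1 * 1 * s :=
    cyl_real hp hp1 hs0 hs1' (by norm_num) (by norm_num) (cu _ (by linarith) (by linarith))
      (cu _ (by norm_num) (by norm_num)) (coin_true _) hs0.le
  have m2 : (mu n p s).real (cyl n {false} Set.univ {true}) = p * 1 * s :=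
    cyl_real hp hp1 hs0 hs1' hp.le (by norm_num) cf (cu _ (by norm_num) (by norm_num))
      (coin_true _) hs0.le
  have mf : (mu n p s).real (cyl n {false} {false} {false}) = p * (1 / 2) * (1 - s) :=
    cyl_real hp hp1 hs0 hs1' hp.le (by norm_num) cf ch (coin_false _) (by linarith)
  have r1 : (mu n p s).real {w | (XX n 0 w < XX n 3 w ∧ XX n 2 w < XX n 3 w) ∧
      XX n 0 w < XX n 2 w} = s / 2 := by
    rw [set1, m1]
    ring
  have r4 : (mu n p s).real {w | ((XX n 0 w < XX n 3 w ∧ XX n 2 w < XX n 3 w) ∧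
      XX n 0 w < XX n 2 w) ∧ XX n 0 w < XX n 1 w} = p * s / 2 := by
    rw [set4, m4]
    ring
  have r3 : (mu n p s).real {w | XX n 0 w < XX n 3 w ∧ XX n 2 w < XX n 3 w} =
      s + p * (1 - s) / 2 := by
    rw [set3, measureReal_union (cyl_disj n _ _ _ _) (cyl_set n _ _ _), m3, mf]
    ring
  have r2 : (mu n p s).real {w | (XX n 0 w < XX n 3 w ∧ XX n 2 w < XX n 3 w) ∧
      XX n 0 w < XX n 1 w} = p * s + p * (1 - s) / 2 := by
    rw [set2, measureReal_union (cyl_disj n _ _ _ _) (cyl_set n _ _ _), m2, mf]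
    ring
  refine ⟨Fin (n + 4) → Bool × unitInterval, inferInstance, mu n p s, XX n, hmu, ?_, ?_, ?_, ?_,
    ?_, ?_⟩
  · intro i
    exact (fn_meas i).comp (measurable_pi_apply i)
  · exact iIndepFun_pi (fun i => (fn_meas i).aemeasurable)
  · intro i c
    have h := (measurePreserving_eval (fun i : Fin (n + 4) => fac p s i) i).measure_preimage
      ((fn_meas i) (measurableSet_singleton c)).nullMeasurableSet
    have h2 := fac_atom hp hp1 hs0 hs1' i c
    exact h.trans h2
  · rw [r1]
    positivity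
  · rw [r2, r3, lt_div_iff₀ (by nlinarith)]
    have h1 : p * (s + p * (1 - s) / 2) ≤ ε * (s + p * (1 - s) / 2) := by
      apply mul_le_mul_of_nonneg_right hpe.le
      nlinarith
    have h2 : s < p ^ 2 * (1 - s) / 2 := by
      have h3 : p ^ 2 * (15 / 16) ≤ p ^ 2 * (1 - s) :=
        mul_le_mul_of_nonneg_left (by linarith) (by positivity)
      have h4 : 0 < p ^ 2 := by positivity
      rw [hs] at h3 ⊢
      linarith
    nlinarith
  · rw [r4, r1]
    have : p * s / 2 / (s / 2) = p := by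
      field_simp
    rw [this]
    exact hpe

end Pool.Agent.Results.MP_aa6114_pr.XyzFails
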